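import Pool.Agent.Helper71.FK.Final
import Pool.Agent.Helper79.FKD.One

/-!
# The optimal constant in the quantitative Faber-Krahn inequality in dimension one

The definitions (`lambda1`, `asym`, `deficit`, `gammaStar`) are those of
`Pool/Agent/Helper71/FK/Final.lean`.
-/

namespace Pool.Agent.Results.MP_5a7c5a_an.DimensionOne

open Pool.Agent.Helper71.FKFinal

/-- The exact value `γ_1^* = π² φ⁵ / 4`. -/
theorem result : gammaStar 1 = Real.pi ^ 2 * Real.goldenRatio ^ 5 / 4 := gammaStar_one

end Pool.Agent.Results.MP_5a7c5a_an.DimensionOne
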