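import Pool.Agent.Helper71.FK.Final
import Pool.Agent.Helper71.FK.Assemble1
import Pool.Agent.Helper47.FK.BallBounds

/-!
# Explicit two-sided bounds for the optimal constant in the quantitative Faber-Krahn inequality

The definitions (`lambda1`, `asym`, `deficit`, `gammaStar`, `ballValue`) are those of
`Pool/Agent/Helper71/FK/Final.lean`.
-/

open MeasureTheory Metric Set Filter Topology

namespace Pool.Agent.Results.MP_5a7c5a_an.TwoSidedBounds

open Pool.Agent.Helper71.FKFinal

/-- Explicit bounds for `γ_N^*` in every dimension `N ≥ 1`. -/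
theorem result (N : ℕ) (hN : 1 ≤ N) :
    1 / (100 * (N : ℝ)) ^ (N + 4) * ballValue N ≤ gammaStar N ∧
    ∀ a : ℝ, 0 < a → a < 1 →
      gammaStar N ≤ (a ^ (-(2 / (N : ℝ))) - 1) / (4 * (1 - a) ^ 2) * ballValue N := by
  refine ⟨?_, fun a ha ha1 => gamma_upper' hN ha ha1⟩
  rcases Nat.lt_or_ge N 2 with h | h
  · obtain rfl : N = 1 := by omega
    have hom : volume.real (ball (0 : EuclideanSpace ℝ (Fin 1)) 1) = 2 := by
      rw [Measure.real, Pool.Agent.Helper79.FKD.vol_ball]
      norm_num
    have hB : ballValue 1 = Real.pi ^ 2 := by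
      unfold ballValue
      rw [hom, Pool.Agent.Helper79.FKD.lambda1_one]
      norm_num
      ring
    have hφ : 1 ≤ Real.goldenRatio ^ 5 := one_le_pow₀ Real.one_lt_goldenRatio.le
    have hπ : 0 < Real.pi ^ 2 := by positivity
    rw [gammaStar_one, hB]
    norm_num
    nlinarith
  · exact gamma_lower h

end Pool.Agent.Results.MP_5a7c5a_an.TwoSidedBounds
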